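import Pool.Agent.H89.FM.Targets1

/-!
# Rows DVP and RMW of the board `fmo_modules`: divisibility on the lattice of a vector
-/

set_option autoImplicit false

namespace Pool.Agent.H85.FM

open Pool.Agent.H31.CN Pool.Agent.H89.FM

theorem pf_DVP : T_DVP := by
  intro n p u Q hn hp hpn hcop
  have hpZ : Prime (p : ℤ) := Nat.prime_iff_prime_int.1 hp
  constructor
  · intro h
    apply h
    change (n : ℤ) ∣ det u u
    have : det u u = 0 := by unfold det; ring
    rw [this]
    exact dvd_zero _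
  · intro h v hv
    have hdet : (p : ℤ) ∣ det u v := (Int.natCast_dvd_natCast.2 hpn).trans hv
    by_cases h1 : (p : ℤ) ∣ u.1
    · have h2 : ¬ (p : ℤ) ∣ u.2 := by
        intro h2
        have h3 : (p : ℤ) ∣ Int.gcd u.1 u.2 := Int.dvd_coe_gcd h1 h2
        have h4 : p ∣ Int.gcd u.1 u.2 := Int.natCast_dvd_natCast.1 h3
        have h5 := Nat.dvd_gcd h4 hpn
        rw [Nat.Coprime] at hcop
        rw [hcop] at h5
        exact hp.one_lt.ne' (Nat.dvd_one.1 h5)
      have h3 : u.2 ^ 2 * val Q v = v.2 ^ 2 * val Q u + det u v *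
          (-2 * Q.1 * u.1 * v.2 + Q.1 * det u v - Q.2.1 * u.2 * v.2) := by
        unfold val det
        ring
      have h4 : (p : ℤ) ∣ u.2 ^ 2 * val Q v := by
        rw [h3]
        exact dvd_add (Dvd.dvd.mul_left h _) (Dvd.dvd.mul_right hdet _)
      rcases hpZ.dvd_or_dvd h4 with h5 | h5
      · exact absurd (hpZ.dvd_of_dvd_pow h5) h2
      · exact h5
    · have h3 : u.1 ^ 2 * val Q v = v.1 ^ 2 * val Q u + det u v *
          (Q.2.1 * u.1 * v.1 + 2 * Q.2.2 * u.2 * v.1 + Q.2.2 * det u v) := by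
        unfold val det
        ring
      have h4 : (p : ℤ) ∣ u.1 ^ 2 * val Q v := by
        rw [h3]
        exact dvd_add (Dvd.dvd.mul_left h _) (Dvd.dvd.mul_right hdet _)
      rcases hpZ.dvd_or_dvd h4 with h5 | h5
      · exact absurd (hpZ.dvd_of_dvd_pow h5) h1
      · exact h5

end Pool.Agent.H85.FM
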