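import Pool.Agent.H89.FM.Targets1

/-!
# Row RMW of the board `fmo_modules`: the Ramanujan sums
-/

set_option autoImplicit false

namespace Pool.Agent.H85.FM

open Pool.Agent.H31.CN Pool.Agent.H89.FM

open Classical in
theorem pf_RMW (hDVP : T_DVP) : T_RMW := by
  intro m w Q hm hw
  have hm0 : m ≠ 0 := hm.ne_zero
  have h1 : |Rn m (Lw m w) Q| ≤
      ∏ p ∈ m.primeFactors, if (p : ℤ) ∣ val Q w then (p : ℝ) else 1 := by
    unfold Rn
    rw [Finset.abs_prod]
    refine Finset.prod_le_prod (fun p _ => abs_nonneg _) fun p hp => ?_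
    have hpp : p.Prime := Nat.prime_of_mem_primeFactors hp
    have hpm : p ∣ m := Nat.dvd_of_mem_primeFactors hp
    have h2 := hDVP m p w Q (Nat.one_le_iff_ne_zero.2 hm0) hpp hpm (by rw [hw]; exact Nat.coprime_one_left m)
    by_cases h3 : (p : ℤ) ∣ val Q w
    · rw [if_pos (h2.2 h3), if_pos h3]
      have h4 : (1 : ℝ) ≤ p := by exact_mod_cast hpp.one_lt.le
      rw [abs_of_nonneg (by linarith)]
      linarith
    · rw [if_neg fun h4 => h3 (h2.1 h4), if_neg h3]
      simp
  refine h1.trans ?_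
  have h2 : (∏ p ∈ m.primeFactors, if (p : ℤ) ∣ val Q w then (p : ℝ) else 1) =
      ((∏ p ∈ m.primeFactors.filter (fun p : ℕ => (p : ℤ) ∣ val Q w), p : ℕ) : ℝ) := by
    rw [Finset.prod_filter]
    push_cast
    refine Finset.prod_congr rfl fun p _ => ?_
    split_ifs <;> simp
  rw [h2]
  have h3 : (∏ p ∈ m.primeFactors.filter (fun p : ℕ => (p : ℤ) ∣ val Q w), p) ∣
      Nat.gcd m (val Q w).natAbs := by
    refine Finset.prod_primes_dvd _ (fun p hp => ?_) fun p hp => ?_
    · exact (Nat.prime_of_mem_primeFactors (Finset.mem_filter.1 hp).1).prime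
    · have h4 := Finset.mem_filter.1 hp
      exact Nat.dvd_gcd (Nat.dvd_of_mem_primeFactors h4.1) (Int.natCast_dvd.1 h4.2)
  have h4 : 0 < Nat.gcd m (val Q w).natAbs := Nat.gcd_pos_of_pos_left _ (Nat.pos_of_ne_zero hm0)
  exact_mod_cast Nat.le_of_dvd h4 h3

end Pool.Agent.H85.FM
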